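import Pool.Agent.H17.SR.Main

/-!
# Schmidt rank over a field and over its algebraic closure: a superlinear gap

For every `d ≥ 3` and every prime `p` there is no linear bound of the Schmidt rank of multilinear
polynomials of degree `d` over fields of characteristic `p` by the Schmidt rank over the algebraic
closure: even the bound `κ * r' ^ (1 + ε)` fails for a suitable `ε > 0` and every `κ`.
-/

set_option autoImplicit false

namespace Pool.Agent.Results.MP_521cd7_ag.InseparableGap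

open MvPolynomial Pool.Agent.H17.SR

theorem result :
    ∀ d : ℕ, 3 ≤ d → ∀ p : ℕ, p.Prime → ∃ ε : ℝ, 0 < ε ∧ ∀ κ : ℝ,
      ∃ (K : Type) (_ : Field K) (_ : CharP K p) (n : ℕ) (P : MvPolynomial (Fin d × Fin n) K)
        (r r' : ℕ), IsMultilinear P ∧ IsSchmidtRank d P r ∧
          IsSchmidtRank d (P.map (algebraMap K (AlgebraicClosure K))) r' ∧
          κ * (r' : ℝ) ^ (1 + ε) < r := by
  intro d hd p hp
  have : Fact p.Prime := ⟨hp⟩
  obtain ⟨ρ, hρ0, hρ1, hρ⟩ := exists_rho d p hd hp.two_le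
  obtain ⟨ε, hε0, hε⟩ := exists_eps p ρ hρ0 hρ1
  refine ⟨ε, hε0, fun κ => ?_⟩
  obtain ⟨s, hs⟩ := exists_s d p ρ ε (max κ 0) hρ0 hp.pos hε
  obtain ⟨n, P, r, r', h1, h2, h3, h4, h5⟩ := two_ranks p s d (by omega)
  refine ⟨SubK p s, inferInstance, charPK p s, n, P, r, r', h1, h2, h3, ?_⟩
  have h6 : (r' : ℝ) ≤ d * ρ ^ s := by
    refine le_trans (b := ((d * (small d p s).card : ℕ) : ℝ)) (by exact_mod_cast h5) ?_
    rw [Nat.cast_mul]
    exact mul_le_mul_of_nonneg_left (hρ s) (by positivity)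
  have h7 : (r' : ℝ) ^ (1 + ε) ≤ ((d : ℝ) * ρ ^ s) ^ (1 + ε) :=
    Real.rpow_le_rpow (by positivity) h6 (by linarith)
  have h8 : ((p : ℝ) ^ s) ≤ 2 ^ d * r := by exact_mod_cast h4
  have h9 : κ * (r' : ℝ) ^ (1 + ε) ≤ max κ 0 * ((d : ℝ) * ρ ^ s) ^ (1 + ε) :=
    mul_le_mul (le_max_left _ _) h7 (by positivity) (le_max_right _ _)
  have h10 : max κ 0 * ((d : ℝ) * ρ ^ s) ^ (1 + ε) * 2 ^ d < r * 2 ^ d := by
    calc _ < (p : ℝ) ^ s := hs
      _ ≤ 2 ^ d * r := h8
      _ = _ := by ring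
  have h11 : max κ 0 * ((d : ℝ) * ρ ^ s) ^ (1 + ε) < r :=
    lt_of_mul_lt_mul_right h10 (by positivity)
  exact lt_of_le_of_lt h9 h11

end Pool.Agent.Results.MP_521cd7_ag.InseparableGap
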